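import Mathlib
import Pool.Agent.Helper18.UW.GoalsR

/-!
# UW packet R1 (MP_d3128a_ag)
-/

set_option autoImplicit false

namespace Pool.Agent.Helper87.UW

open Finset
open Pool.Agent.Helper43.Hw (T na va lz Play aa ac sc oo sk U Dd Sd T_zero T_succ T_mono two_T)
open Pool.Agent.Helper43.Gm (st mv nn)
open Pool.Agent.Helper18.EW
open Pool.Agent.Helper18.UW

/-! ### values depend on the earlier rows only -/

theorem va_congr {μ R : ℕ} {κ x κ' x' : ℕ → ℕ} {c z : ℕ}
    (h : ∀ t ≤ z, κ t = κ' t ∧ x t = x' t) : va μ R κ x c z = va μ R κ' x' c z := by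
  have e1 : st κ c z = st κ' c z := by
    unfold st
    congr 1
    refine filter_congr (fun t ht => ?_)
    rw [(h t (mem_range.1 ht).le).1]
  have e2 : mv κ x (fun _ => μ) c z = mv κ' x' (fun _ => μ) c z := by
    unfold mv
    refine filter_congr (fun t ht => ?_)
    rw [(h t (mem_range.1 ht).le).1, (h t (mem_range.1 ht).le).2]
  unfold va nn
  rw [e1, e2, (h z le_rfl).1, (h z le_rfl).2]

theorem uz_congr {m : ℕ → ℕ} {R N : ℕ} {κ x κ' x' : ℕ → ℕ} {z : ℕ}
    (h : ∀ t ≤ z, κ t = κ' t ∧ x t = x' t) : uz m R N κ x z = uz m R N κ' x' z := by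
  unfold uz
  exact sum_congr rfl (fun c _ => va_congr h)

theorem uo_congr {m : ℕ → ℕ} {R : ℕ} {κ x κ' x' : ℕ → ℕ} {z : ℕ}
    (h : ∀ t ≤ z, κ t = κ' t ∧ x t = x' t) : uo m R κ x z = uo m R κ' x' z := by
  unfold uo
  rw [(h z le_rfl).1]
  congr 1
  refine filter_congr (fun c _ => ?_)
  rw [va_congr h]

theorem us_congr {m : ℕ → ℕ} {κ x κ' x' : ℕ → ℕ} {z : ℕ}
    (h : ∀ t ≤ z, κ t = κ' t ∧ x t = x' t) : us m κ x z = us m κ' x' z := by
  unfold us
  rw [(h z le_rfl).1]
  congr 1
  refine filter_congr (fun t ht => ?_)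
  rw [(h t (mem_range.1 ht).le).1, (h t (mem_range.1 ht).le).2]

/-- the load of the row `0` -/
theorem uz0 {m : ℕ → ℕ} {R N : ℕ} {κ x : ℕ → ℕ} (hk : κ 0 ≤ N) (hv : κ 0 = N → x 0 = 0)
    (hna : ∀ c < N, m c + 1 ≤ R) : uz m R N κ x 0 = ∑ c ∈ range (κ 0), m c + x 0 := by
  have hlt : ∀ c, c < κ 0 → va (m c) R κ x c 0 = m c := by
    intro c hc
    unfold va nn
    rw [if_neg (by omega), if_neg (by omega), if_neg (by omega)]
    simp [mv]
  unfold uz
  rcases Nat.lt_or_ge (κ 0) N with h | h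
  · have h1 : ∑ c ∈ range (κ 0 + 1), va (m c) R κ x c 0 = ∑ c ∈ range N, va (m c) R κ x c 0 := by
      apply sum_subset
      · intro c hc
        rw [mem_range] at hc ⊢
        omega
      · intro c hc hc2
        rw [mem_range] at hc hc2
        unfold va
        rw [if_pos (by omega)]
        have := hna c hc
        unfold na
        omega
    rw [← h1, sum_range_succ]
    congr 1
    · exact sum_congr rfl (fun c hc => hlt c (mem_range.1 hc))
    · unfold va nn
      rw [if_neg (by omega), if_neg (by omega), if_pos rfl]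
  · have h2 : κ 0 = N := le_antisymm hk h
    rw [hv h2, h2, add_zero]
    exact sum_congr rfl (fun c hc => hlt c (by rw [h2]; exact mem_range.1 hc))

/-- filling -/
theorem fill {m : ℕ → ℕ} {N Q a : ℕ} (h : Q < ∑ c ∈ range N, m c)
    (ha : ∑ c ∈ range a, m c ≤ Q) : ∃ k, a ≤ k ∧ k < N ∧ ∑ c ∈ range k, m c ≤ Q ∧
      Q < ∑ c ∈ range k, m c + m k := by
  classical
  have hex : ∃ n, Q < ∑ c ∈ range n, m c := ⟨N, h⟩
  have h1 := Nat.find_spec hex
  have h2 : Nat.find hex ≤ N := Nat.find_min' hex h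
  have hpos : Nat.find hex ≠ 0 := by
    intro h0
    rw [h0] at h1
    simp at h1
  obtain ⟨k, hk⟩ : ∃ k, Nat.find hex = k + 1 := ⟨Nat.find hex - 1, by omega⟩
  rw [hk] at h1 h2
  rw [sum_range_succ] at h1
  refine ⟨k, ?_, by omega, ?_, h1⟩
  · by_contra hc
    have hsub : ∑ c ∈ range (k + 1), m c ≤ ∑ c ∈ range a, m c :=
      sum_le_sum_of_subset (by intro c hc; rw [mem_range] at hc ⊢; omega)
    rw [sum_range_succ] at hsub
    omega
  · by_contra hc
    exact Nat.find_min hex (m := k) (by omega) (by omega)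

/-- the sum of a decreasing sequence -/
theorem tail_sum {f : ℕ → ℕ} {r R : ℕ} (hf : ∀ y, r ≤ y → y + 1 < R → f (y + 1) ≤ f y - 1) :
    ∀ n y, r ≤ y → y + n + 1 = R → ∑ z ∈ Ico y R, f z ≤ T (f y) := by
  intro n
  induction n with
  | zero =>
    intro y hy hR
    have e : Ico y R = {y} := by
      ext z
      rw [mem_Ico, mem_singleton]
      omega
    rw [e, sum_singleton]
    have := two_T (f y)
    nlinarith
  | succ n ih =>
    intro y hy hR
    rw [sum_eq_sum_Ico_succ_bot (by omega)]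
    have h1 := ih (y + 1) (by omega) (by omega)
    have h2 := hf y hy (by omega)
    have h3 : T (f (y + 1)) ≤ T (f y - 1) := T_mono h2
    rcases Nat.eq_zero_or_pos (f y) with h0 | h0
    · rw [h0] at h3 ⊢
      rw [Nat.zero_sub] at h3
      omega
    · obtain ⟨g, hg⟩ : ∃ g, f y = g + 1 := ⟨f y - 1, by omega⟩
      rw [hg] at h3 ⊢
      rw [Nat.add_sub_cancel] at h3
      rw [T_succ]
      omega

/-- numbers -/
structure Nu (M μ R K : ℕ) : Prop where
  μ1 : 2 ^ 60 ≤ μ
  μM : μ ≤ M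
  RM : 2 ^ 30 * M ≤ R
  K1 : 2 ^ 35 * (K * T μ) ≤ μ * R

theorem nu {m ms : ℕ → ℕ} {M μ δ R N0 N K b l Lg q v lam : ℕ} {W : ℤ}
    (S : Su m ms M μ δ R N0 N K b l Lg q v lam W) : Nu M μ R K := by
  have p1 := S.par.b1
  have p2 := S.par.b2
  have p3 := S.par.L1
  have p4 := S.par.l1
  have hb : 2 ^ 42 ≤ b := le_trans (by nlinarith) p1
  have hq : 1 ≤ q + 1 := by omega
  have hbl : 2 ^ 33 * (b * (q + 1) * l) ≤ μ := by
    refine le_trans ?_ p2
    calc 2 ^ 33 * (b * (q + 1) * l) = 2 ^ 33 * b * ((q + 1) * 1) * l := by ring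
      _ ≤ 2 ^ 33 * b * ((q + 1) * (q + 1)) * l := by gcongr
      _ = 2 ^ 33 * b * (q + 1) ^ 2 * l := by ring
  have hbb : b ≤ b * (q + 1) * l := by
    calc b = b * 1 * 1 := by ring
      _ ≤ b * (q + 1) * l := by gcongr
  have hμ : 2 ^ 60 ≤ μ := by omega
  refine ⟨hμ, S.μM, S.RM, ?_⟩
  have hT : T μ ≤ μ ^ 2 := by
    have := two_T μ
    nlinarith
  have hlo := S.lo
  rw [S.par.hK]
  calc 2 ^ 35 * (b * (q + 1) * T μ) ≤ 2 ^ 35 * (b * (q + 1) * μ ^ 2) := by gcongr
    _ = 2 ^ 33 * (b * (q + 1)) * (4 * μ ^ 2) := by ring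
    _ ≤ 2 ^ 33 * (b * (q + 1)) * (l * R) := Nat.mul_le_mul_left _ hlo
    _ = 2 ^ 33 * (b * (q + 1) * l) * R := by ring
    _ ≤ μ * R := Nat.mul_le_mul_right _ hbl

theorem m1M {m ms : ℕ → ℕ} {M μ δ R N0 N K b l Lg q v lam : ℕ} {W : ℤ}
    (S : Su m ms M μ δ R N0 N K b l Lg q v lam W) (hδ : δ < μ) :
    ∀ c < N, 1 ≤ m c ∧ m c ≤ M := by
  intro c hc
  rcases Nat.lt_or_ge c N0 with h | h
  · exact S.pre c h
  · have := S.main c h hc
    have := S.μM
    omega

/-- the points suffice -/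
theorem insuff (h1 : GoalU1) {m ms : ℕ → ℕ} {M μ δ R N0 N K b l Lg q v lam : ℕ} {W : ℤ}
    (S : Su m ms M μ δ R N0 N K b l Lg q v lam W) (hδ : δ < μ) {κ x : ℕ → ℕ} {r : ℕ}
    (hP : UPlay m R N κ x) (hr : r + 1 + μ ≤ R) (hex : ∀ z < r, uz m R N κ x z = lam + 1 + z)
    (hle : uz m R N κ x r ≤ lam + 1 + r) (hκ : κ r = N)
    (hN0 : R ≤ r + 59 * M → N0 ≤ κ (R - 60 * M)) : False := by
  have n := nu S
  have n1 := n.μ1
  have n2 := n.μM
  have n3 := n.RM
  have n4 := n.K1
  have hm := m1M S hδ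
  have hm2 : ∀ c < N, 1 ≤ m c ∧ m c + 2 ≤ R := fun c hc => ⟨(hm c hc).1, by
    have := (hm c hc).2
    omega⟩
  obtain ⟨a1, a2, a3, a4, a5, a6, a7, a8, a9⟩ := h1 m R N κ x hm2 (by omega) hP
  have hκy : ∀ y, r ≤ y → y < R → κ y = N := by
    intro y hy
    induction y, hy using Nat.le_induction with
    | base => intro _; exact hκ
    | succ y hy ih =>
      intro hyR
      have b1 := ih (by omega)
      have b2 := hP.mono y hyR
      have b3 := hP.le (y + 1) hyR
      omega
  -- the tail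
  have htail : ∀ c < N, ∑ z ∈ Ico r R, va (m c) R κ x c z ≤ T (va (m c) R κ x c r) := by
    intro c hc
    apply tail_sum (r := r) (fun y hy hyR => ?_) (R - 1 - r) r le_rfl (by omega)
    have b1 := a7 y hyR c (by rw [hκy y hy (by omega)]; exact hc)
    rcases Nat.eq_zero_or_pos (va (m c) R κ x c y) with h0 | h0
    · rw [(b1.2 h0).1]; omega
    · have := b1.1 h0
      omega
  have hvm : ∀ c < N, va (m c) R κ x c r ≤ m c := by
    intro c hc
    unfold va nn
    rw [if_neg (by omega), if_neg (by omega), if_neg (by omega)]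
    exact (Nat.sub_le _ _).trans (Nat.sub_le _ _)
  have htot : ∑ c ∈ range N, T (m c) = ∑ z ∈ range r, (lam + 1 + z) +
      ∑ z ∈ Ico r R, uz m R N κ x z := by
    rw [← a9, ← sum_range_add_sum_Ico _ (show r ≤ R by omega)]
    congr 1
    exact sum_congr rfl (fun z hz => hex z (mem_range.1 hz))
  have hB : ∃ B, (∀ c < N, 2 * T (va (m c) R κ x c r) ≤ (B + 1) * va (m c) R κ x c r) ∧
      ((B = M ∧ r + 59 * M < R) ∨ (B = μ ∧ R ≤ r + 59 * M)) := by
    rcases Nat.lt_or_ge (r + 59 * M) R with h | h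
    · refine ⟨M, ?_, Or.inl ⟨rfl, h⟩⟩
      intro c hc
      rw [two_T, mul_comm]
      apply Nat.mul_le_mul_right
      have := hvm c hc
      have := (hm c hc).2
      omega
    · refine ⟨μ, ?_, Or.inr ⟨rfl, h⟩⟩
      intro c hc
      rcases Nat.lt_or_ge c N0 with hc0 | hc0
      · have b0 := hN0 h
        have b1 := (a1 c (R - 60 * M) (by omega)).1
        have b2 : sc R κ c ≤ R - 60 * M := by
          by_contra hcon
          have := b1.2 (by omega)
          omega
        have b3 := a3 c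
        have b4 := (a6 r (by omega) c (by omega)).2.2.2
        have b5 := (hm c hc).2
        have b6 : va (m c) R κ x c r = 0 := by
          by_contra hcon
          have := b4.1 (Nat.pos_of_ne_zero hcon)
          omega
        rw [b6]
        simp [T_zero]
      · rw [two_T, mul_comm]
        apply Nat.mul_le_mul_right
        have := hvm c hc
        have := (S.main c hc0 hc).2
        omega
  obtain ⟨B, hB1, hB2⟩ := hB
  -- the tail of the loads
  have hT1 : 2 * ∑ z ∈ Ico r R, uz m R N κ x z ≤ (B + 1) * (lam + 1 + r) := by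
    calc 2 * ∑ z ∈ Ico r R, uz m R N κ x z
        = 2 * ∑ c ∈ range N, ∑ z ∈ Ico r R, va (m c) R κ x c z := by
          unfold uz
          rw [sum_comm]
      _ ≤ 2 * ∑ c ∈ range N, T (va (m c) R κ x c r) :=
          Nat.mul_le_mul_left _ (sum_le_sum (fun c hc => htail c (mem_range.1 hc)))
      _ = ∑ c ∈ range N, 2 * T (va (m c) R κ x c r) := by rw [mul_sum]
      _ ≤ ∑ c ∈ range N, (B + 1) * va (m c) R κ x c r :=
          sum_le_sum (fun c hc => hB1 c (mem_range.1 hc))
      _ = (B + 1) * uz m R N κ x r := by unfold uz; rw [mul_sum]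
      _ ≤ (B + 1) * (lam + 1 + r) := Nat.mul_le_mul_left _ hle
  -- the special points
  have hSp : ∑ i ∈ range K, T (ms i) ≤ K * T μ := by
    calc ∑ i ∈ range K, T (ms i) ≤ ∑ i ∈ range K, T μ :=
          sum_le_sum (fun i hi => T_mono (S.spec i (mem_range.1 hi)).2)
      _ = K * T μ := by simp
  have hW : W ≤ 2 * R := (le_abs_self W).trans S.hW
  have hLs : ∑ z ∈ range R, (lam + 1 + z) = ∑ z ∈ range r, (lam + 1 + z) +
      ∑ z ∈ Ico r R, (lam + 1 + z) := (sum_range_add_sum_Ico _ (show r ≤ R by omega)).symm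
  have hmain : 2 * ∑ z ∈ Ico r R, (lam + 1 + z) ≤
      (B + 1) * (lam + 1 + r) + 2 * (K * T μ) + 4 * R := by
    have t := S.tot
    have e1 : ∑ z ∈ range R, ((lam + 1 + z : ℕ) : ℤ) =
        ((∑ z ∈ range R, (lam + 1 + z) : ℕ) : ℤ) := by push_cast; rfl
    have e2 : ∑ c ∈ range N, (T (m c) : ℤ) = ((∑ c ∈ range N, T (m c) : ℕ) : ℤ) := by
      push_cast; rfl
    have e3 : ∑ i ∈ range K, (T (ms i) : ℤ) = ((∑ i ∈ range K, T (ms i) : ℕ) : ℤ) := by
      push_cast; rfl
    rw [e1, e2, e3] at t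
    omega
  -- the last rows
  rcases hB2 with ⟨hBM, h59⟩ | ⟨hBM, h59⟩
  · -- `r < R - 59 M`
    rw [hBM] at hmain
    have c1 : 59 * M * (lam + 1 + (R - 59 * M)) ≤ ∑ z ∈ Ico r R, (lam + 1 + z) := by
      calc 59 * M * (lam + 1 + (R - 59 * M))
          = ∑ z ∈ Ico (R - 59 * M) R, (lam + 1 + (R - 59 * M)) := by
            rw [sum_const, Nat.card_Ico, smul_eq_mul]
            congr 1
            omega
        _ ≤ ∑ z ∈ Ico (R - 59 * M) R, (lam + 1 + z) :=
            sum_le_sum (fun z hz => by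
              have := (mem_Ico.1 hz).1
              omega)
        _ ≤ ∑ z ∈ Ico r R, (lam + 1 + z) :=
            sum_le_sum_of_subset (fun z hz => by
              rw [mem_Ico] at hz ⊢
              omega)
    obtain ⟨X, hX⟩ : ∃ X, X = lam + 1 + (R - 59 * M) := ⟨_, rfl⟩
    rw [← hX] at c1
    have c2 : lam + 1 + r ≤ X := by omega
    have c3 : R ≤ 2 * X := by omega
    have c4 : (M + 1) * (lam + 1 + r) ≤ (M + 1) * X := Nat.mul_le_mul_left _ c2
    have c5 : μ * R ≤ M * (2 * X) := Nat.mul_le_mul n2 c3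
    have c6 : 2 * (K * T μ) ≤ M * (2 * X) := by omega
    have c7 : 118 * (M * X) ≤ (M + 1) * X + M * (2 * X) + 4 * (2 * X) := by
      have : 2 * (59 * M * X) = 118 * (M * X) := by ring
      omega
    have c8 : (M + 1) * X + M * (2 * X) + 4 * (2 * X) = 3 * (M * X) + 9 * X := by ring
    have c9 : X ≤ M * X := Nat.le_mul_of_pos_left _ (by omega)
    have c10 : 0 < X := by omega
    omega
  · -- `R - 59 M ≤ r`
    rw [hBM] at hmain
    have c1 : (μ + 1) * (lam + 1 + r) ≤ ∑ z ∈ Ico r R, (lam + 1 + z) := by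
      calc (μ + 1) * (lam + 1 + r) ≤ (R - r) * (lam + 1 + r) :=
            Nat.mul_le_mul_right _ (by omega)
        _ = ∑ z ∈ Ico r R, (lam + 1 + r) := by
            rw [sum_const, Nat.card_Ico, smul_eq_mul]
        _ ≤ ∑ z ∈ Ico r R, (lam + 1 + z) :=
            sum_le_sum (fun z hz => by
              have := (mem_Ico.1 hz).1
              omega)
    have c2 : R ≤ 2 * (lam + 1 + r) := by omega
    obtain ⟨X, hX⟩ : ∃ X, X = lam + 1 + r := ⟨_, rfl⟩
    rw [← hX] at c1 c2 hmain
    have c3 : (μ + 1) * X = μ * X + X := by ring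
    have c4 : μ * R ≤ μ * (2 * X) := Nat.mul_le_mul_left _ c2
    have c5 : μ * (2 * X) = 2 * (μ * X) := by ring
    have c6 : 2 ^ 60 * X ≤ μ * X := Nat.mul_le_mul_right _ n1
    have c7 : 0 < X := by omega
    omega

/-- one step of the construction -/
theorem stepR (h1 : GoalU1) (h4 : GoalU4) (hc : GoalUC) {m ms : ℕ → ℕ}
    {M μ δ R N0 N K b l Lg q v lam : ℕ} {W : ℤ}
    (S : Su m ms M μ δ R N0 N K b l Lg q v lam W) (hδ : δ < μ) (y : ℕ)
    (hy : y + 1 + 1 + μ ≤ R) {κ x : ℕ → ℕ} (hU : UPre m R N y κ x)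
    (hex : ∀ z ≤ y, uz m R N κ x z = lam + 1 + z) (hκ : κ y < N)
    (hN0 : R - 60 * M ≤ y → N0 ≤ κ (R - 60 * M)) :
    ∃ κ' x' : ℕ → ℕ, UPre m R N (y + 1) κ' x' ∧
      (∀ z ≤ y + 1, uz m R N κ' x' z = lam + 1 + z) ∧ κ' (y + 1) < N ∧
      (R - 60 * M ≤ y + 1 → N0 ≤ κ' (R - 60 * M)) := by
  have n := nu S
  have n1 := n.μ1
  have n2 := n.μM
  have n3 := n.RM
  have hm := m1M S hδ
  have hm2 : ∀ c < N, 1 ≤ m c ∧ m c + 2 ≤ R := fun c hc => ⟨(hm c hc).1, by
    have := (hm c hc).2
    omega⟩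
  -- the modified beginning
  obtain ⟨κm, hκm⟩ : ∃ f : ℕ → ℕ → ℕ, ∀ k t, f k t = if t ≤ y then κ t else k :=
    ⟨fun k t => if t ≤ y then κ t else k, fun _ _ => rfl⟩
  obtain ⟨xm, hxm⟩ : ∃ f : ℕ → ℕ → ℕ, ∀ k t, f k t = if t ≤ y then x t else k :=
    ⟨fun k t => if t ≤ y then x t else k, fun _ _ => rfl⟩
  have hag : ∀ k w, ∀ t ≤ y, κm k t = κ t ∧ xm w t = x t := by
    intro k w t ht
    rw [hκm, hxm, if_pos ht, if_pos ht]
    exact ⟨rfl, rfl⟩
  have hnew : ∀ k w, κm k (y + 1) = k ∧ xm w (y + 1) = w := by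
    intro k w
    rw [hκm, hxm, if_neg (by omega), if_neg (by omega)]
    exact ⟨rfl, rfl⟩
  have hmono : ∀ a, ∀ b ≤ y, a ≤ b → κ a ≤ κ b := by
    intro a b hb hab
    induction b, hab using Nat.le_induction with
    | base => exact le_rfl
    | succ b hab ih =>
      exact (ih (by omega)).trans (hU.mono b (by omega))
  have hna : ∀ c, κ y ≤ c → c < N → na (m c) R (y + 1) = 0 := by
    intro c hc1 hc2
    unfold na
    rcases Nat.lt_or_ge y (R - 60 * M) with h | h
    · have := (hm c hc2).2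
      omega
    · have b1 := hN0 h
      have b2 := hmono (R - 60 * M) y le_rfl h
      have := (S.main c (by omega) hc2).2
      omega
  have hpre : ∀ k w, κ y ≤ k → k ≤ N → (k < N → w < m k) → (k = N → w = 0) →
      (k = κ y → x y < w) → UPre m R N (y + 1) (κm k) (xm w) := by
    intro k w k1 k2 k3 k4 k5
    refine ⟨?_, ?_, ?_, ?_, ?_, ?_⟩
    · intro t ht
      rw [(hag k w t (by omega)).1]
      rcases Nat.lt_or_ge t y with h | h
      · rw [(hag k w (t + 1) (by omega)).1]
        exact hU.mono t h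
      · have : t = y := by omega
        rw [this, (hnew k w).1]
        exact k1
    · intro t ht
      rcases Nat.lt_or_ge y t with h | h
      · have : t = y + 1 := by omega
        rw [this, (hnew k w).1]
        exact k2
      · rw [(hag k w t h).1]
        exact hU.le t h
    · intro t ht
      rcases Nat.lt_or_ge y t with h | h
      · have : t = y + 1 := by omega
        rw [this, (hnew k w).1, (hnew k w).2]
        exact k3
      · rw [(hag k w t h).1, (hag k w t h).2]
        exact hU.lt t h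
    · intro t ht
      rcases Nat.lt_or_ge y t with h | h
      · have : t = y + 1 := by omega
        rw [this, (hnew k w).1]
        intro c c1 c2
        exact hna c (by omega) c2
      · rw [(hag k w t h).1]
        exact hU.nat t h
    · intro t ht
      rcases Nat.lt_or_ge y t with h | h
      · have : t = y + 1 := by omega
        rw [this, (hnew k w).1, (hnew k w).2]
        exact k4
      · rw [(hag k w t h).1, (hag k w t h).2]
        exact hU.fin t h
    · intro t ht
      rw [(hag k w t (by omega)).1, (hag k w t (by omega)).2]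
      rcases Nat.lt_or_ge t y with h | h
      · rw [(hag k w (t + 1) (by omega)).1, (hag k w (t + 1) (by omega)).2]
        exact hU.inc t h
      · have : t = y := by omega
        rw [this, (hnew k w).1, (hnew k w).2]
        exact fun _ => k5
  -- the load of the new row
  obtain ⟨Q, hQ⟩ : ∃ Q, Q = ∑ c ∈ range (κ y), m c + x y + uo m R κ x y + us m κ x y + 1 :=
    ⟨_, rfl⟩
  have hload : ∀ k w, UPre m R N (y + 1) (κm k) (xm w) →
      uz m R N (κm k) (xm w) (y + 1) + Q = lam + 1 + (y + 1) + (∑ c ∈ range k, m c + w) := by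
    intro k w hk
    obtain ⟨κ3, x3, hp3, hag3, huz3⟩ := hc m R N (y + 1) (κm k) (xm w) hm2 (by omega) hk
    have b0 : ∀ t ≤ y, κ3 t = κ t ∧ x3 t = x t := by
      intro t ht
      have e1 := hag3 t (by omega)
      have e2 := hag k w t ht
      exact ⟨e1.1.trans e2.1, e1.2.trans e2.2⟩
    have b1 := h4 m R N κ3 x3 hm2 (by omega) hp3 y (by omega) (by
      rw [(b0 y le_rfl).1]
      exact hna)
    rw [uo_congr b0, us_congr b0, uz_congr b0, hex y le_rfl, (b0 y le_rfl).1, (b0 y le_rfl).2,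
      (hag3 (y + 1) le_rfl).1, (hag3 (y + 1) le_rfl).2, (hnew k w).1, (hnew k w).2,
      huz3 (y + 1) le_rfl] at b1
    omega
  have hexm : ∀ k w, ∀ z ≤ y, uz m R N (κm k) (xm w) z = lam + 1 + z := by
    intro k w z hz
    rw [uz_congr (fun t ht => hag k w t (by omega))]
    exact hex z hz
  rcases Nat.lt_or_ge Q (∑ c ∈ range N, m c) with hlt | hge
  · obtain ⟨k, k1, k2, k3, k4⟩ := fill (a := κ y) hlt (by omega)
    have hUk := hpre k (Q - ∑ c ∈ range k, m c) k1 (by omega) (by omega) (by omega) (by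
      intro hk
      rw [hk]
      omega)
    have hl := hload k _ hUk
    have hall : ∀ z ≤ y + 1, uz m R N (κm k) (xm (Q - ∑ c ∈ range k, m c)) z = lam + 1 + z := by
      intro z hz
      rcases Nat.lt_or_ge y z with h | h
      · have : z = y + 1 := by omega
        rw [this]
        omega
      · exact hexm k _ z h
    refine ⟨κm k, xm (Q - ∑ c ∈ range k, m c), hUk, hall, by rw [(hnew k 0).1]; exact k2, ?_⟩
    intro hz
    rcases Nat.lt_or_ge y (R - 60 * M) with h | h
    · have hzy : R - 60 * M = y + 1 := by omega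
      rw [hzy, (hnew k 0).1]
      by_contra hcon
      obtain ⟨κ3, x3, hp3, hag3, huz3⟩ := hc m R N (y + 1) (κm k) _ hm2 (by omega) hUk
      obtain ⟨a1, a2, a3, a4, a5, a6, a7, a8, a9⟩ := h1 m R N κ3 x3 hm2 (by omega) hp3
      have b0 : ∀ t ≤ y, κ3 t = κ t := by
        intro t ht
        exact (hag3 t (by omega)).1.trans (hag k 0 t ht).1
      have c1 : ∑ z ∈ range (R - 60 * M), (lam + 1 + z) =
          ∑ z ∈ range (R - 60 * M), ∑ c ∈ range N0, va (m c) R κ3 x3 c z := by
        apply sum_congr rfl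
        intro z hz'
        have hz2 := mem_range.1 hz'
        rw [← hall z (by omega), ← huz3 z (by omega)]
        unfold uz
        symm
        apply sum_subset
        · intro c hc'
          rw [mem_range] at hc' ⊢
          exact lt_of_lt_of_le hc' S.NN
        · intro c hc1 hc2
          rw [mem_range] at hc1 hc2
          have d1 := b0 z (by omega)
          have d2 := hmono z y le_rfl (by omega)
          unfold va
          rw [if_pos (by omega)]
          have := (hm c hc1).2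
          unfold na
          omega
      have c2 : ∑ z ∈ range (R - 60 * M), ∑ c ∈ range N0, va (m c) R κ3 x3 c z ≤
          ∑ c ∈ range N0, T (m c) := by
        rw [sum_comm]
        apply sum_le_sum
        intro c hc'
        rw [← a8 c (lt_of_lt_of_le (mem_range.1 hc') S.NN)]
        apply sum_le_sum_of_subset
        intro z hz'
        rw [mem_range] at hz' ⊢
        omega
      have := S.pa
      omega
    · rw [(hag k 0 (R - 60 * M) h).1]
      exact hN0 h
  · exfalso
    have hUk := hpre N 0 hκ.le le_rfl (by omega) (fun _ => rfl) (by omega)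
    have hl := hload N _ hUk
    obtain ⟨κ3, x3, hp3, hag3, huz3⟩ := hc m R N (y + 1) (κm N) _ hm2 (by omega) hUk
    refine insuff h1 S hδ (r := y + 1) hp3 (by omega) ?_ ?_ ?_ ?_
    · intro z hz
      rw [huz3 z (by omega)]
      exact hexm N 0 z (by omega)
    · rw [huz3 (y + 1) le_rfl]
      omega
    · rw [(hag3 (y + 1) le_rfl).1, (hnew N 0).1]
    · intro h59
      have hM : 1 ≤ M := by omega
      have hle : R - 60 * M ≤ y := by omega
      rw [(hag3 (R - 60 * M) (by omega)).1, (hag N 0 _ hle).1]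
      exact hN0 hle

/-- packet R1 -/
theorem goalR1 (h1 : GoalU1) (h4 : GoalU4) (hc : GoalUC) : GoalR1 := by
  intro m ms M μ δ R N0 N K b l Lg q v lam W S
  have n := nu S
  have n1 := n.μ1
  have n2 := n.μM
  have n3 := n.RM
  have hδ : δ < μ := by
    have p2 := S.par.b2
    have h3 := S.d1
    have h4 := S.vb
    have p4 := S.par.l1
    have hbl : 2 ^ 33 * (b * l) ≤ μ := by
      refine le_trans ?_ p2
      have hq : 1 ≤ (q + 1) ^ 2 := Nat.one_le_pow _ _ (by omega)
      calc 2 ^ 33 * (b * l) = 2 ^ 33 * b * 1 * l := by ring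
        _ ≤ 2 ^ 33 * b * (q + 1) ^ 2 * l := by gcongr
    omega
  have hm := m1M S hδ
  have hm2 : ∀ c < N, 1 ≤ m c ∧ m c + 2 ≤ R := fun c hc => ⟨(hm c hc).1, by
    have := (hm c hc).2
    omega⟩
  -- the row 0
  have hpre0 : ∀ k w, k ≤ N → (k < N → w < m k) → (k = N → w = 0) →
      UPre m R N 0 (fun _ => k) (fun _ => w) := by
    intro k w k2 k3 k4
    refine ⟨?_, ?_, ?_, ?_, ?_, ?_⟩
    · intro t ht
      omega
    · intro t _
      exact k2
    · intro t _
      exact k3
    · intro t ht c _ hc'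
      unfold na
      have := (hm2 c hc').2
      omega
    · intro t _
      exact k4
    · intro t ht
      omega
  have hstart : ∃ κ x : ℕ → ℕ, UPre m R N 0 κ x ∧ (∀ z ≤ 0, uz m R N κ x z = lam + 1 + z) ∧
      κ 0 < N ∧ (R - 60 * M ≤ 0 → N0 ≤ κ (R - 60 * M)) := by
    rcases Nat.lt_or_ge (lam + 1) (∑ c ∈ range N, m c) with hlt | hge
    · obtain ⟨k, k1, k2, k3, k4⟩ := fill (a := 0) hlt (by simp)
      have hUk := hpre0 k (lam + 1 - ∑ c ∈ range k, m c) (by omega) (by omega) (by omega)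
      refine ⟨_, _, hUk, ?_, k2, by omega⟩
      intro z hz
      have : z = 0 := by omega
      rw [this, uz0 (by show k ≤ N; omega) (by show k = N → _; omega)
        (fun c hc' => by have := (hm2 c hc').2; omega)]
      show ∑ c ∈ range k, m c + (lam + 1 - ∑ c ∈ range k, m c) = lam + 1 + 0
      omega
    · exfalso
      have hUk := hpre0 N 0 le_rfl (by omega) (fun _ => rfl)
      obtain ⟨κ3, x3, hp3, hag3, huz3⟩ := hc m R N 0 _ _ hm2 (by omega) hUk
      refine insuff h1 S hδ (r := 0) hp3 (by omega) (by omega) ?_ ?_ ?_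
      · rw [huz3 0 le_rfl, uz0 (by show N ≤ N; omega) (by intro _; rfl)
          (fun c hc' => by have := (hm2 c hc').2; omega)]
        show ∑ c ∈ range N, m c + 0 ≤ _
        omega
      · rw [(hag3 0 le_rfl).1]
      · intro h59
        omega
  have hind : ∀ y, y + 1 + μ ≤ R → ∃ κ x : ℕ → ℕ, UPre m R N y κ x ∧
      (∀ z ≤ y, uz m R N κ x z = lam + 1 + z) ∧
      κ y < N ∧ (R - 60 * M ≤ y → N0 ≤ κ (R - 60 * M)) := by
    intro y
    induction y with
    | zero => intro _; exact hstart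
    | succ y ih =>
      intro hy
      obtain ⟨κ, x, c1, c2, c3, c4⟩ := ih (by omega)
      exact stepR h1 h4 hc S hδ y (by omega) c1 c2 c3 c4
  obtain ⟨κ, x, c1, c2, c3, c4⟩ := hind (R - 1 - μ) (by omega)
  exact ⟨κ, x, c1, c2, c3, c4 (by omega)⟩

end Pool.Agent.Helper87.UW
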