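import Mathlib
import Pool.Agent.Helper18.UW.GoalsA

/-!
# UW packet CII (MP_d3128a_ag)
-/

set_option autoImplicit false

namespace Pool.Agent.Helper87.UW

open Finset
open Pool.Agent.Lead.Sh
open Pool.Agent.Helper18.EW
open Pool.Agent.Helper18.UW
open Pool.Agent.Helper43.Ah (subtotal two_ch2)

/-- packet CII -/
theorem goalCII : GoalCII := by
  intro hTL hBX hGL hF1 A m M d hA hM hd hbig hlo hhi
  classical
  -- the size of `d`
  have hlg : 10 ≤ lg M := by unfold lg; omega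
  have hdM : 2 ^ 400 * M ≤ d := by
    refine le_trans ?_ hd
    have : 1 ≤ lg M ^ 3 := Nat.one_le_pow _ _ (by omega)
    calc 2 ^ 400 * M = 2 ^ 400 * 1 * M := by ring
      _ ≤ 2 ^ 400 * lg M ^ 3 * M := by gcongr
  have hd10 : 2 ^ 20 * M ≤ d := le_trans (Nat.mul_le_mul_right _ (Nat.pow_le_pow_right (by norm_num) (by norm_num))) hdM
  clear hd hdM
  -- `m0`
  obtain ⟨m0, hm0⟩ : ∃ m0, m0 = min M (Nat.sqrt (d / 28)) := ⟨_, rfl⟩
  have h1 : 1 ≤ m0 := by
    rw [hm0]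
    apply le_min hM
    rw [Nat.le_sqrt]
    omega
  have h2 : m0 ≤ M := by rw [hm0]; exact min_le_left _ _
  have h3 : 28 * m0 ^ 2 ≤ d := by
    have a1 : m0 ≤ Nat.sqrt (d / 28) := by rw [hm0]; exact min_le_right _ _
    have a2 : m0 * m0 ≤ d / 28 := Nat.le_sqrt.1 a1
    have a3 : 28 * (m0 * m0) ≤ d := by
      have := Nat.mul_le_mul_left 28 a2
      exact this.trans (Nat.mul_div_le d 28)
    calc 28 * m0 ^ 2 = 28 * (m0 * m0) := by ring
      _ ≤ d := a3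
  have h4 : ∀ k ∈ A, ¬ d < 28 * m k ^ 2 → m k ≤ m0 := by
    intro k hk hh
    rw [hm0]
    apply le_min (hA k hk).2
    rw [Nat.le_sqrt, Nat.le_div_iff_mul_le (by norm_num)]
    have : m k * m k * 28 = 28 * m k ^ 2 := by ring
    omega
  -- the big and the small points
  obtain ⟨Big, hBig⟩ : ∃ B, B = A.filter (fun k => d < 28 * m k ^ 2) := ⟨_, rfl⟩
  obtain ⟨Sm, hSm⟩ : ∃ B, B = A.filter (fun k => ¬ d < 28 * m k ^ 2) := ⟨_, rfl⟩
  have hsum : ∑ k ∈ Big, (m k + 1).choose 2 + ∑ k ∈ Sm, (m k + 1).choose 2 =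
      ∑ k ∈ A, (m k + 1).choose 2 := by
    rw [hBig, hSm]
    exact sum_filter_add_sum_filter_not A _ _
  have hdis : Disjoint Big Sm := by
    rw [hBig, hSm]
    exact disjoint_filter_filter_not _ _ _
  have hun : Big ∪ Sm = A := by
    rw [hBig, hSm]
    exact filter_union_filter_not_eq _ _
  rw [← hBig] at hbig
  have hSm0 : ∀ k ∈ Sm, 1 ≤ m k ∧ m k ≤ m0 := by
    intro k hk
    rw [hSm, mem_filter] at hk
    exact ⟨(hA k hk.1).1, h4 k hk.1 hk.2⟩
  have hBig0 : ∀ k ∈ Big, 1 ≤ m k ∧ m k ≤ M := by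
    intro k hk
    rw [hBig, mem_filter] at hk
    exact hA k hk.1
  -- the number `e`
  obtain ⟨e, he⟩ : ∃ e, e = d - d / 30 := ⟨_, rfl⟩
  have he1 : e < d := by omega
  have he2 : 29 * d ≤ 30 * e := by omega
  have he3 : 100 * M + 1 ≤ e := by omega
  have b1 := two_ch2 (d + 1)
  have b2 := two_ch2 e
  have b3 := two_ch2 (e + 1)
  have hTe : (e + 1 + 1).choose 2 = (e + 1).choose 2 + (e + 1) := by
    have : 2 * (e + 1 + 1).choose 2 = 2 * ((e + 1).choose 2 + (e + 1)) := by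
      calc 2 * (e + 1 + 1).choose 2 = (e + 1) * (e + 1 + 1) := b3
        _ = e * (e + 1) + 2 * (e + 1) := by ring
        _ = 2 * (e + 1).choose 2 + 2 * (e + 1) := by rw [b2]
        _ = _ := by ring
    omega
  have hBe : 4 * ∑ k ∈ Big, (m k + 1).choose 2 ≤ (e - 1) ^ 2 := by
    have c1 : d ≤ 2 * (e - 1) := by omega
    have c2 : d ^ 2 ≤ 4 * (e - 1) ^ 2 := by
      calc d ^ 2 ≤ (2 * (e - 1)) ^ 2 := Nat.pow_le_pow_left c1 2
        _ = 4 * (e - 1) ^ 2 := by ring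
    omega
  have hBe2 : 4 * ∑ k ∈ Big, (m k + 1).choose 2 ≤ e ^ 2 :=
    hBe.trans (Nat.pow_le_pow_left (by omega) 2)
  have hBTe : ∑ k ∈ Big, (m k + 1).choose 2 ≤ (e + 1).choose 2 := by
    have : e ^ 2 ≤ e * (e + 1) := by nlinarith
    omega
  have hgap : (e + 1).choose 2 + 3 * m0 ^ 2 + M ≤ (d + 1 + 1).choose 2 := by
    have c1 : e * (e + 1) ≤ (d - 1) * d := Nat.mul_le_mul (by omega) (by omega)
    have c2 : (d - 1) * d + d = d * d := by
      obtain ⟨d', rfl⟩ : ∃ d', d = d' + 1 := ⟨d - 1, by omega⟩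
      simp; ring
    have c3 : (d + 1) * (d + 1 + 1) = d * d + 3 * d + 2 := by ring
    omega
  -- the set `U`
  have htot : (e + 1).choose 2 + 3 * m0 ^ 2 + M - ∑ k ∈ Big, (m k + 1).choose 2 ≤
      ∑ k ∈ Sm, (m k + 1).choose 2 := by
    have : (d + 1 + 1).choose 2 ≤ ∑ k ∈ A, (m k + 1).choose 2 := hlo
    omega
  obtain ⟨U, hUS, hU1, hU2⟩ := subtotal m0 _ h1 m Sm (fun k hk => (hSm0 k hk).2) htot
  have hcm : (m0 + 1).choose 2 ≤ m0 ^ 2 := by
    have := two_ch2 m0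
    nlinarith
  have hdU : Disjoint Big U := disjoint_of_subset_right hUS hdis
  have hsA' : ∑ k ∈ Big ∪ U, (m k + 1).choose 2 =
      ∑ k ∈ Big, (m k + 1).choose 2 + ∑ k ∈ U, (m k + 1).choose 2 := sum_union hdU
  have hsB : ∑ k ∈ Sm \ U, (m k + 1).choose 2 + ∑ k ∈ U, (m k + 1).choose 2 =
      ∑ k ∈ Sm, (m k + 1).choose 2 := sum_sdiff hUS
  have hAB : (Big ∪ U) ∪ (Sm \ U) = A := by
    rw [← hun, union_assoc, union_sdiff_of_subset hUS]
  have hdAB : Disjoint (Big ∪ U) (Sm \ U) := by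
    rw [disjoint_union_left]
    exact ⟨disjoint_of_subset_right sdiff_subset hdis, disjoint_sdiff⟩
  have hU0 : ∀ k ∈ U, 1 ≤ m k ∧ m k ≤ m0 := fun k hk => hSm0 k (hUS hk)
  have hB0 : ∀ k ∈ Sm \ U, m k ≤ m0 := fun k hk => (hSm0 k (mem_sdiff.1 hk).1).2
  -- the triangle
  have t1 : Ind (triD 0 e) (rows m (Big ∪ U)) := by
    apply (hTL M m0 e m Big U h1 h2 (by omega) hdU hBig0 hU0 hBe2).2
    rw [hsA']
    have : (e + 2).choose 2 = (e + 1 + 1).choose 2 := rfl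
    omega
  have t2 : Inj (triD 0 (e - 1)) (rows m (Big ∪ U)) := by
    apply (hTL M m0 (e - 1) m Big U h1 h2 (by omega) hdU hBig0 hU0 hBe).1
    rw [hsA', show e - 1 + 2 = e + 1 by omega]
    omega
  -- the trapezoid
  have hlo' : (d + 1 + 1).choose 2 ≤ ∑ k ∈ A, (m k + 1).choose 2 := hlo
  have hhi' : ∑ k ∈ A, (m k + 1).choose 2 ≤ (d + 1 + 1).choose 2 + M := hhi
  have t3 : Ind (triZ d (d - e + 1)) (rows m (Sm \ U)) := by
    apply (hBX d (d - e + 1) m0 h1 (by omega) (by omega) (by omega) (Sm \ U) m hB0).2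
    have g := (hF1 1 d (d - e + 1) le_rfl (by omega) (by omega)).2.2.2.2
    rw [show d + 1 - (d - e + 1) = e by omega, show d + 2 - (d - e + 1) = e + 1 by omega] at g
    have g2 : (d + 1) * (d + 1 + 1) = (d + 1) * (d + 2) := rfl
    omega
  have t4 : Inj (triZ d (d - e)) (rows m (Sm \ U)) := by
    apply (hBX d (d - e) m0 h1 (by omega) (by omega) (by omega) (Sm \ U) m hB0).1
    have g := (hF1 1 d (d - e) le_rfl (by omega) (by omega)).2.2.2.2
    rw [show d + 1 - (d - e) = e + 1 by omega, show d + 2 - (d - e) = e + 2 by omega] at g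
    have g2 : (d + 1) * (d + 1 + 1) = (d + 1) * (d + 2) := rfl
    have g3 : (e + 1) * (e + 1 + 1) = (e + 1) * (e + 2) := rfl
    omega
  have t5 := hGL m d e (Big ∪ U) (Sm \ U) (by omega) he1 hdAB t1 t2 t3 t4 (by
    rw [card_rows, hAB, card_triD]
    exact hlo)
  rwa [hAB] at t5

end Pool.Agent.Helper87.UW
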